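import Pool.Agent.MWHP.StmtsP
import Pool.Agent.MWH.StmtsB
import Pool.Agent.MWA.StmtsQ

/-!
# Block MWHQ: the system h2 for arbitrary period (rows)

Base (h) with period `n` (block MWHP), `x²y² ≈ y²x²` and `xtxsx ≈ x^(n+1)tx^(n+1)sx^(n+1)`: the
lattice is distributive.  Every row: file `Pool/Agent/HelperNN_MWHQ/XXX.lean`, import
`Pool.Agent.MWHQ.Stmts`, namespace `Pool.Agent.MWHQ.HNN`, theorem `xxx (hypotheses = rows in uses, in
this order) : XxxStmt`.  Rows `MWHP.X` are in `MWHP/StmtsP.lean`; `Stt`, `W`, `Vd`, `Vs`, `Tr`, `Eg`, `LL2`,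
`Dm`, `vc` in `MWH/Defs.lean`, `TrA` (all transitions) in `MWH/StmtsB.lean`; the bits `Has n R`, `Ab n R k a j`,
`ad n a j = a + 2n e_j`, `LR n R` in `MWL/Defs.lean`.
-/

namespace Pool.Agent.MWHQ

open Pool.Agent.Helper14_MV Pool.Agent.Helper2_MV Pool.Agent.MVO Pool.Agent.MWL Pool.Agent.MWS
  Pool.Agent.MWH

/-- the system h2 -/
structure H2 (n : ℕ) (β : FIC) : Prop extends MWHP.BaseH n β where
  hh : RR β [0, 0, 1, 1] [1, 1, 0, 0]
  j3 : RR β [0, 2, 0, 3, 0] (List.replicate (n + 1) 0 ++ 2 :: (List.replicate (n + 1) 0 ++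
    3 :: List.replicate (n + 1) 0))

/-- **PIN** (uses MWHP.PS0).  Push with a strictly increasing map.
PROOF.  As the row PIN of MWH (table mwh), with PS0 of MWHP: PS0 with the same `f` (`BMap k0 k f` from the
strict monotonicity on `0..k0`).  `Dm` for `a0`, `a`: let `j' ≤ k`.  If `2 ≤ a j'`: first case.  If `a j' = 1`: if
`j' = f j0` with `j0 ≤ k0`, second case with this `j0` (`a0 j0 ≤ 1` because `2 ≤ a0 j0` would give `2 ≤ a j'`; no
other `j ≤ k0` has `f j = j'`); if `j'` is not a value: third case.  If `a j' = 0`: third case (`a0 j ≠ 0` gives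
`a (f j) ≠ 0`).  The same for `b`.  The condition on the common block is empty because `f` is injective on
`0..k0` (`i0 ≤ k0` by `Vd`). -/
def PinStmt : Prop :=
  ∀ (n : ℕ) (β θ : FIC), MWHP.BaseH n β → β ≤ θ → ∀ (k0 k : ℕ) (f a0 b0 a b : ℕ → ℕ) (i0 : ℕ),
    (∀ j < k0, f j < f (j + 1)) → f k0 ≤ k → Vd k0 a0 b0 i0 → Vd k a b (f i0) →
      (∀ j ≤ k0, (a0 j ≠ 0 → a (f j) ≠ 0) ∧ (2 ≤ a0 j → 2 ≤ a (f j)) ∧
        (b0 j ≠ 0 → b (f j) ≠ 0) ∧ (2 ≤ b0 j → 2 ≤ b (f j))) →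
        (a0 i0 = 1 ↔ a (f i0) = 1) → (b0 i0 = 1 ↔ b (f i0) = 1) →
          ∀ s s' : Stt, Vs a0 b0 i0 s → Vs a0 b0 i0 s' →
            Tr θ k0 a0 b0 i0 s s' → Tr θ k a b (f i0) s s'

/-- **BB2** (uses MWL.TRN, MWA.CNP).  The bits `J 3` and `D 0` in h2.
PROOF.  CNP for `β` (second line, from left to right, and the third line): `J3n n β 2` and `D0n n β`.
`J3n n β 2` is `AbN n β 2 (v3 1 1 1) 2 = Ab n (FC.ofFIC β) 2 (v3 1 1 1) 2`, and `v3 1 1 1 = fun _ => 1` on `0..2`: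
TRN (3).  `D0n n β` is `Ab n (FC.ofFIC β) 1 (v2 1 2) 0`, and `v2 1 2` is the base vector of `D 0` on `0..1`. -/
def Bb2Stmt : Prop :=
  ∀ (n : ℕ) (β : FIC), H2 n β → Has n (FC.ofFIC β) (Bit.J 3) ∧ Has n (FC.ofFIC β) (Bit.D 0)

/-- **LT5** (uses MWL.HVP, MWL.ARR, MWL.TA1, MWL.TA2).  Normal vectors are light of degree two, or all
their entries are heavy.
PROOF.  Let `a` be not `LL2`, `j ≤ k`, `a j ≠ 0`, and suppose `a j = 1`.  If some `p ≤ j` has `2 ≤ a p`: `Hv a j`, so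
`a` absorbs at `j` (HVP), `Nrm`: `2 ≤ a j`, contradiction.  So all entries at blocks `≤ j` are `≤ 1`.  By ARR
`D 0` gives `D l` for all `l` (induction).  If there is a block `q`, `j < q ≤ k`, with `2 ≤ a q`: TA1 (4):
`a` absorbs at `j` because `D (lb a j)`; `Nrm`: contradiction.  Otherwise all entries are `≤ 1`.  If
`deg k a = 2`, there are exactly two blocks `u < v ≤ k` with the entry `1`: `LL2 k a u v`, contradiction
(`deg k a` is the sum of the entries on `0..k`).  So `3 ≤ deg k a`, and `J 3` gives `J (deg k a)` (ARR,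
induction); TA2 (1): `a` absorbs at `j`, contradiction. -/
def Lt5Stmt : Prop :=
  ∀ (n : ℕ) (R : FC), LR n R → Has n R (Bit.J 3) → Has n R (Bit.D 0) → ∀ (k : ℕ) (a : ℕ → ℕ),
    MWHP.Nrm n R k a → 2 ≤ deg k a → (∃ u v, LL2 k a u v) ∨ ∀ j ≤ k, a j ≠ 0 → 2 ≤ a j

/-- **LT6** (uses MWL.ARR, MWL.TA2).  A light letter of degree two absorbs at both blocks if `J 2` and
`D 0` hold.
PROOF.  All entries of `a` on `0..k` are `≤ 1`, `deg k a = 2`.  TA2 (1) for `i = u`: `J 2` and `D (lb a u)`,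
`lb a u = 0`; for `i = v`: `J 2` and `D (lb a v)`, `lb a v = 1`, and ARR: `D 0` gives `D 1`. -/
def Lt6Stmt : Prop :=
  ∀ (n : ℕ) (R : FC), LR n R → Has n R (Bit.J 2) → Has n R (Bit.D 0) →
    ∀ (k : ℕ) (a : ℕ → ℕ) (u v : ℕ), LL2 k a u v → Ab n R k a u ∧ Ab n R k a v

/-- **HH2** (uses MWHP.ALL, PIN).  Two heavy letters commute in h2.
PROOF.  `hh` is `Tr β 0 (vc [2]) (vc [2]) 0 xy yx` (`asm 0 (W ..)` is `[0,0,1,1]`, `[1,1,0,0]`; `rfl`, `decide` or
`simp [asm, W, blk, vc]`).  PIN with `k0 = 0`, `f = fun _ => i`: `Tr β k a b i xy yx`.  ALL gives `xy ov` and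
`yx ov`; symmetry, transitivity and `RR.refl` give `TrA`. -/
def Hh2Stmt : Prop :=
  ∀ (n : ℕ) (β : FIC), H2 n β → ∀ (k : ℕ) (a b : ℕ → ℕ) (i : ℕ), Vd k a b i → 2 ≤ a i → 2 ≤ b i →
    TrA β k a b i

/-- **J2T** (uses MWHP.LRNN, MWHP.ABI, MWHP.ABJ, BB2, LT6, HH2).  If `θ` has `J 2`, a light letter of
degree two has no visible transitions with heavy letters and with light letters of degree two.
PROOF.  `LR n (FC.ofFIC θ)` (LRNN); `D 0` holds in `β` (BB2), so in `θ` (`h _ _`).  LT6: `a` absorbs at `i` in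
`θ` (`i = u` or `i = v` because `a i ≠ 0`).  ABI with `j = i`: `a1 = ad n a i`, `2 ≤ a1 i`, and
`W a b i s ~θ W a1 b i s` for all `s` with `Vs a b i s`.  If `2 ≤ b i`: `TrA β k a1 b i` by HH2, and the three
relations give `Tr θ k a b i s s'` (`Vs a b i s` implies `Vs a1 b i s`).  If `LL2 k b u' v'`: the same for `b`:
LT6, ABJ for `a1`, `b`, `j = i`: `b1 = ad n b i`, and HH2 for `a1`, `b1`. -/
def J2tStmt : Prop :=
  ∀ (n : ℕ) (β θ : FIC), H2 n β → β ≤ θ → Has n (FC.ofFIC θ) (Bit.J 2) →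
    ∀ (k : ℕ) (a b : ℕ → ℕ) (i u v : ℕ), Vd k a b i → LL2 k a u v →
      ((∃ u' v', LL2 k b u' v') ∨ 2 ≤ b i) → TrA θ k a b i

/-- **JLA** (uses MWHP.LRNN, MWHP.LT2, MWHP.JPC, J2T).  Two light letters of degree two.
PROOF.  As MWH.JLL: JPC with `F = fun _ => False`; `a i = b i = 1` by `LL2` and `Vd`.  First condition: J2T.
Second condition: `b` absorbs at `j ≤ k` in `θ`; LT2 (1) for `b`: `Has n (FC.ofFIC θ) (Bit.J 2)`; J2T. -/
def JlaStmt : Prop :=
  ∀ (n : ℕ) (β : FIC), H2 n β → ∀ (k : ℕ) (a b : ℕ → ℕ) (i u v u' v' : ℕ), Vd k a b i →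
    LL2 k a u v → LL2 k b u' v' → JPp β (asm k (W a b i Stt.xy), asm k (W a b i Stt.yx))

/-- **JHB** (uses MWHP.JPC, MWHP.ABO, J2T).  A light letter of degree two in the blocks `i`, `p` and a
letter which is heavy in all blocks except `p`.
PROOF.  JPC with `F j := j ≠ p` (`F i` because `b i ≠ 0 = b p`: `a p = 1`, `Vd.un`).  First condition: J2T (`2 ≤ b i`).
Second condition: `¬ F j` means `j = p`, `a p = 1 ≠ 0`, `p ≠ i`: ABO (second case) gives `Tr θ`.  The states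
`(xy, ov)` and `(yx, ov)` are the second and third case of JPC. -/
def JhbStmt : Prop :=
  ∀ (n : ℕ) (β : FIC), H2 n β → ∀ (k : ℕ) (a b : ℕ → ℕ) (i p u v : ℕ), Vd k a b i → LL2 k a u v →
    ((i = u ∧ p = v) ∨ (i = v ∧ p = u)) → (∀ j ≤ k, j ≠ p → 2 ≤ b j) →
      JPp β (asm k (W a b i Stt.xy), asm k (W a b i Stt.ov)) ∧
      JPp β (asm k (W a b i Stt.yx), asm k (W a b i Stt.ov))

/-- **DLB** (uses MWHP.PS0, PIN).  A block which is empty for both letters can be deleted.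
PROOF.  Let `f r := if r < j then r else r + 1` (given), `g r := if r < j then r else r - 1`.  `i ≠ j` (`a i ≠ 0`),
so `i = f i'` with `i' = g i ≤ k` (`i' = i` if `i < j`, else `i - 1`).  `Vd k (a ∘ f) (b ∘ f) i'`: `un` for the blocks
`f r`; `deg k (a ∘ f) = deg (k + 1) a` because `a j = 0` (sum over `0..k+1` without `j`; e.g. `deg` of `psh`, or
`Finset.sum` over `range`, split at `j`).  `←`: PIN along `f` for `a0 = a ∘ f`, `b0 = b ∘ f` (all conditions are
trivial).  `→`: PS0 along `g` (`BMap (k+1) k g`), target `a ∘ f`, `b ∘ f`, `g i = i'`.  `Dm (k+1) k g a (a ∘ f)`: let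
`j' ≤ k`; the blocks `r ≤ k + 1` with `g r = j'` are `f j'` and possibly `j` (where `a j = 0`).  If `2 ≤ a (f j')`: first
case; if `a (f j') = 1`: second case with `j0 = f j'`; if `0`: third case.  The common block: the only other
block `r` with `g r = i'` is `j` (`a j = b j = 0`).  `a (f i') = a i`. -/
def DlbStmt : Prop :=
  ∀ (n : ℕ) (β θ : FIC), MWHP.BaseH n β → β ≤ θ → ∀ (k : ℕ) (a b : ℕ → ℕ) (i j : ℕ),
    Vd (k + 1) a b i → j ≤ k + 1 → a j = 0 → b j = 0 → ∀ f : ℕ → ℕ,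
      (∀ r, f r = if r < j then r else r + 1) → ∃ i' ≤ k, f i' = i ∧
        Vd k (fun r => a (f r)) (fun r => b (f r)) i' ∧
        ∀ s s' : Stt, Vs a b i s → Vs a b i s' →
          (Tr θ (k + 1) a b i s s' ↔ Tr θ k (fun r => a (f r)) (fun r => b (f r)) i' s s')

/-- **RDL** (uses DLB, JHB).  A light letter of degree two and a letter whose entries are all heavy.
PROOF.  Induction on `k` (for all `a b i u v`).  Let `p` be the other one of the blocks `u`, `v` (`i = u` or `i = v`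
because `a i ≠ 0`).  If `b j ≠ 0` for all `j ≤ k`, `j ≠ p`: all these entries are `≥ 2`, JHB; the lists are
`[(asm k (W a b i xy), asm k (W a b i ov))]` and the one for `yx`.  Otherwise there is `j ≤ k`, `j ≠ p` with `b j = 0`; `j ≠ i`
(`2 ≤ b i`), so `a j = 0` (`LL2.az`); `k ≥ 1` because `u < v ≤ k`, so write `k = k' + 1`.  DLB for `θ = β` gives `i'` and
`Vd`; `LL2 k' (a ∘ f)` for the blocks `g u`, `g v` with `f (g u) = u`, `f (g v) = v`
(`g r = if r < j then r else r - 1`); all non-zero entries of `b ∘ f` are `≥ 2`, `2 ≤ b (f i') = b i`.  The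
induction hypothesis gives lists `L1`, `L2` for the smaller word, and DLB for `θ` shows that they work for
`a, b` (`Vs a b i ov` since `2 ≤ b i`; `i'` is the same for all `θ` since `f` is injective). -/
def RdlStmt : Prop :=
  ∀ (n : ℕ) (β : FIC), H2 n β → ∀ (k : ℕ) (a b : ℕ → ℕ) (i u v : ℕ), Vd k a b i → LL2 k a u v →
    2 ≤ b i → (∀ j ≤ k, b j ≠ 0 → 2 ≤ b j) →
      Eg β k a b i Stt.xy Stt.ov ∧ Eg β k a b i Stt.yx Stt.ov

/-- **ED2** (uses MWHP.LRNN, MWHP.EDV, BB2, LT5, HH2, JLA, RDL).  The edges of h2.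
PROOF.  EDV.  `LR n (FC.ofFIC β)` by LRNN with `θ = β`, the bits by BB2.  LT5 for `a` and for `b` (`Vd.da`, `Vd.db`).
(1) `a i = b i = 1`: then both are `LL2` (an entry `1` is not heavy): JLA, `L = [(asm k (W a b i xy),
asm k (W a b i yx))]`.  (2) `2 ≤ b i`: then `b` is not `LL2` (its entries are `≤ 1`), so all its entries are
heavy.  If `2 ≤ a i`: HH2, `L = []` (`TrA β`, then `h _ _`).  If `a i = 1`: `a` is `LL2`: RDL.  (`a i ≠ 0` by `Vd.ai`.) -/
def Ed2Stmt : Prop := ∀ (n : ℕ) (β : FIC), H2 n β → MWHP.EdgeN n β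

/-- **DI2** (uses MWHP.TLMN, MWHP.SWH, ED2).  PROOF.  TLMN with SWH and ED2; `BasN` from `BaseH`. -/
def Di2Stmt : Prop := ∀ (n : ℕ) (β : FIC), H2 n β → DistF β

end Pool.Agent.MWHQ
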